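import Pool.Agent.U17.Eig.Red

/-!
# Isomorphism of graphs with four distinct eigenvalues is GI-complete

Let `Γ` be the split graph whose clique consists of the `N` points and whose independent set consists
of the blocks of an incidence structure in which every point is on `λ ^ 2` blocks, and any two
points are on `λ` blocks; the sizes of the blocks are arbitrary. Then the distinct eigenvalues of
`Γ` are `0`, `-λ`, `λ - 1` and `N - 1 + λ` (`Pool/Agent/U17/Eig/Spec.lean`). Every family of sets
can be completed to such an incidence structure by sets with at most two elements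
(`Pool/Agent/U17/Eig/Compl.lean`), and so every graph is encoded in such a split graph.
-/

set_option autoImplicit false

namespace Pool.Agent.Results.MP_128e7d_lc.FourEigenvalues

open Pool.Agent.NPC Pool.Agent.NPC.R671 Pool.Agent.Y815.GI

open Classical in
/-- The set of the distinct eigenvalues of the adjacency matrix of a finite graph. -/
noncomputable def eigenvalues {N : ℕ} (G : SimpleGraph (Fin N)) : Set ℝ :=
  spectrum ℝ (G.adjMatrix ℝ)

/-- Connected graphs with exactly four distinct eigenvalues, all of which are integers. -/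
def FourIntegral {N : ℕ} (G : SimpleGraph (Fin N)) : Prop :=
  G.Connected ∧ (eigenvalues G).ncard = 4 ∧ ∀ θ ∈ eigenvalues G, ∃ z : ℤ, θ = z

/-- The vertices can be partitioned into a clique and an independent set. -/
def Split {N : ℕ} (G : SimpleGraph (Fin N)) : Prop :=
  ∃ K : Set (Fin N), G.IsClique K ∧ G.IsIndepSet Kᶜ

/-- Some polynomial-time algorithm decides isomorphism correctly on all pairs of graphs (given by
their adjacency matrices) in the class `C`. -/
def IsoInP (C : ∀ n : ℕ, SimpleGraph (Fin n) → Prop) : Prop :=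
  ∃ D : List Bool → List Bool, PolyTime D ∧
    ∀ (n m : ℕ) (X : SimpleGraph (Fin n)) (Y : SimpleGraph (Fin m)), C n X → C m Y →
      (D (bits (adjMatrix X, adjMatrix Y)) = [true] ↔ Nonempty (X ≃g Y))

open Classical in
theorem eigs_eq {N : ℕ} (G : SimpleGraph (Fin N)) :
    Pool.Agent.U17.Eig.eigs G = eigenvalues G := Pool.Agent.U17.Eig.eigs_eq G

theorem main : ∃ f : List Bool → List Bool, PolyTime f ∧ ∀ x : List Bool,
    ∃ (N M : ℕ) (X' : SimpleGraph (Fin N)) (Y' : SimpleGraph (Fin M)),
      f x = bits (adjMatrix X', adjMatrix Y') ∧ (FourIntegral X' ∧ Split X') ∧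
        (FourIntegral Y' ∧ Split Y') ∧ (x ∈ lang GraphIso ↔ Nonempty (X' ≃g Y')) := by
  obtain ⟨f, hf, h⟩ := Pool.Agent.U17.Eig.main
  refine ⟨f, hf, fun x => ?_⟩
  obtain ⟨N, M, X', Y', h1, ⟨a1, a2, a3, a4⟩, ⟨b1, b2, b3, b4⟩, h4⟩ := h x
  rw [eigs_eq] at a3 a4 b3 b4
  exact ⟨N, M, X', Y', h1, ⟨⟨a1, a3, a4⟩, a2⟩, ⟨⟨b1, b3, b4⟩, b2⟩, h4⟩

theorem gi_to (C : ∀ n : ℕ, SimpleGraph (Fin n) → Prop) (h : InPP GraphIso) : IsoInP C := by
  obtain ⟨D, hD, hD'⟩ := h
  exact ⟨D, hD, fun n m X Y _ _ => (hD' _).symm.trans (bits_mem X Y)⟩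

theorem to_gi (C : ∀ n : ℕ, SimpleGraph (Fin n) → Prop)
    (hC : ∀ n X, FourIntegral X → Split X → C n X) (h : IsoInP C) : InPP GraphIso := by
  obtain ⟨D, hD, hD'⟩ := h
  obtain ⟨f, hf, hf'⟩ := main
  refine ⟨fun x => D (f x), Pool.Agent.H642R2.TMSim.polyTime_comp hD hf, fun x => ?_⟩
  obtain ⟨N, M, X', Y', h1, h2, h3, h4⟩ := hf' x
  show x ∈ lang GraphIso ↔ D (f x) = [true]
  rw [h4, h1, hD' N M X' Y' (hC _ _ h2.1 h2.2) (hC _ _ h3.1 h3.2)]

/-- **Isomorphism of graphs with four distinct eigenvalues is GI-complete**, even for connected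
split graphs with integral eigenvalues.

* There is a polynomial-time computable function `f` on bit strings such that, for *every* bit
  string `x`, the value `f x` codes a pair of adjacency matrices of connected split graphs `X'`,
  `Y'` with exactly four distinct eigenvalues, all of which are integers, and `x` is a yes-instance
  of the graph isomorphism problem for arbitrary graphs iff `X'` and `Y'` are isomorphic.
* So graph isomorphism is in P iff isomorphism can be decided in polynomial time for the graphs
  with at most four distinct eigenvalues; and iff this is so for the connected split graphs with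
  exactly four distinct eigenvalues, all of which are integers. -/
theorem result :
    (∃ f : List Bool → List Bool, PolyTime f ∧ ∀ x : List Bool,
      ∃ (N M : ℕ) (X' : SimpleGraph (Fin N)) (Y' : SimpleGraph (Fin M)),
        f x = bits (adjMatrix X', adjMatrix Y') ∧ (FourIntegral X' ∧ Split X') ∧
          (FourIntegral Y' ∧ Split Y') ∧ (x ∈ lang GraphIso ↔ Nonempty (X' ≃g Y'))) ∧
    (InPP GraphIso ↔ IsoInP fun _ G => (eigenvalues G).ncard ≤ 4) ∧
    (InPP GraphIso ↔ IsoInP fun _ G => FourIntegral G ∧ Split G) :=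
  ⟨main, ⟨gi_to _, to_gi _ fun _ _ h _ => h.2.1.le⟩,
    ⟨gi_to _, to_gi _ fun _ _ h h' => ⟨h, h'⟩⟩⟩

end Pool.Agent.Results.MP_128e7d_lc.FourEigenvalues
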