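import Pool.Agent.U29.JS.Red

/-!
# Isomorphism of graphs with the spectrum of a Johnson graph `J(N, 3)` is GI-complete

Let `𝒬` be a family of `4`-subsets of an `N`-set, any two of which share at most two elements. The
vertices of the graph `Γ 𝒬` are the `3`-subsets `T` of the `N`-set. The block of `T` is the set of
the three pairs in `T` if `T` is not contained in a member of `𝒬`, and if `T ⊆ Q ∈ 𝒬`, then it is the
set of the three pairs in `Q` which are not contained in `T`. Two vertices are adjacent if their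
blocks share a pair. The graph has the characteristic polynomial of the Johnson graph `J(N, 3)`, for
every family `𝒬` (`Pool/Agent/U29/JS/Basic.lean`); for `N ≥ 10`, the graphs of two families are
isomorphic iff the families are (`Pool/Agent/U29/JS/Dec.lean`); and every graph is encoded in such a
family (`Pool/Agent/U29/JS/Enc.lean`).
-/

set_option autoImplicit false

namespace Pool.Agent.Results.MP_128e7d_lc.JohnsonSpectrum

open Pool.Agent.NPC Pool.Agent.NPC.R671 Pool.Agent.Y815.GI

/-- The Johnson graph `J(N, k)`: the vertices are the `k`-subsets of an `N`-set, and two of them are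
adjacent if they share exactly `k - 1` elements. -/
def johnson (N k : ℕ) : SimpleGraph {s : Finset (Fin N) // s.card = k} where
  Adj s t := s ≠ t ∧ (s.1 ∩ t.1).card + 1 = k
  symm := ⟨fun s t h => ⟨h.1.symm, by rw [Finset.inter_comm]; exact h.2⟩⟩
  loopless := ⟨fun _ h => h.1 rfl⟩

open Classical in
/-- The characteristic polynomial of the adjacency matrix of a finite graph. Two graphs have the
same one iff they are cospectral: they have the same eigenvalues with the same multiplicities. -/
noncomputable def charPoly {V : Type} [Fintype V] (G : SimpleGraph V) : Polynomial ℝ :=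
  (G.adjMatrix ℝ).charpoly

open Classical in
/-- The set of the distinct eigenvalues of the adjacency matrix of a finite graph. -/
noncomputable def eigenvalues {n : ℕ} (G : SimpleGraph (Fin n)) : Set ℝ :=
  spectrum ℝ (G.adjMatrix ℝ)

open Classical in
/-- All vertices have degree `d`. -/
def Regular {n : ℕ} (G : SimpleGraph (Fin n)) (d : ℕ) : Prop := ∀ v, G.degree v = d

/-- Connected regular graphs which are cospectral with the Johnson graph `J(N, 3)`; the distinct
eigenvalues are the four integers `3 * N - 9`, `2 * N - 9`, `N - 7` and `-3`. -/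
def JohnsonLike (N : ℕ) {n : ℕ} (G : SimpleGraph (Fin n)) : Prop :=
  10 ≤ N ∧ G.Connected ∧ Regular G (3 * (N - 3)) ∧
    eigenvalues G = {3 * (N : ℝ) - 9, 2 * (N : ℝ) - 9, (N : ℝ) - 7, -3} ∧
    charPoly G = charPoly (johnson N 3)

/-- Some polynomial-time algorithm decides isomorphism correctly on all pairs of graphs (given by
their adjacency matrices) in the class `C`. -/
def IsoInP (C : ∀ n : ℕ, SimpleGraph (Fin n) → Prop) : Prop :=
  ∃ D : List Bool → List Bool, PolyTime D ∧
    ∀ (n m : ℕ) (X : SimpleGraph (Fin n)) (Y : SimpleGraph (Fin m)), C n X → C m Y →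
      (D (bits (adjMatrix X, adjMatrix Y)) = [true] ↔ Nonempty (X ≃g Y))

theorem of_cls {N n : ℕ} {G : SimpleGraph (Fin n)} (h : Pool.Agent.U29.JS.JCls N G) :
    JohnsonLike N G := by
  classical
  obtain ⟨h0, h1, h2, h3, h4⟩ := h
  refine ⟨h0, h1, h2, ?_, h4⟩
  rw [← h3]
  unfold eigenvalues
  exact (Pool.Agent.U17.Eig.eigs_eq G).symm

theorem main : ∃ f : List Bool → List Bool, PolyTime f ∧ ∀ x : List Bool,
    ∃ (a b N M : ℕ) (X' : SimpleGraph (Fin N)) (Y' : SimpleGraph (Fin M)),
      f x = bits (adjMatrix X', adjMatrix Y') ∧ JohnsonLike a X' ∧ JohnsonLike b Y' ∧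
        (x ∈ lang GraphIso ↔ Nonempty (X' ≃g Y')) := by
  obtain ⟨f, hf, h⟩ := Pool.Agent.U29.JS.main
  refine ⟨f, hf, fun x => ?_⟩
  obtain ⟨N, M, X', Y', h1, ⟨a, h2⟩, ⟨b, h3⟩, h4⟩ := h x
  exact ⟨a, b, N, M, X', Y', h1, of_cls h2, of_cls h3, h4⟩

theorem gi_to (C : ∀ n : ℕ, SimpleGraph (Fin n) → Prop) (h : InPP GraphIso) : IsoInP C := by
  obtain ⟨D, hD, hD'⟩ := h
  exact ⟨D, hD, fun n m X Y _ _ => (hD' _).symm.trans (bits_mem X Y)⟩

theorem to_gi (C : ∀ n : ℕ, SimpleGraph (Fin n) → Prop)
    (hC : ∀ n X, (∃ N, JohnsonLike N X) → C n X) (h : IsoInP C) : InPP GraphIso := by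
  obtain ⟨D, hD, hD'⟩ := h
  obtain ⟨f, hf, hf'⟩ := main
  refine ⟨fun x => D (f x), Pool.Agent.H642R2.TMSim.polyTime_comp hD hf, fun x => ?_⟩
  obtain ⟨a, b, N, M, X', Y', h1, h2, h3, h4⟩ := hf' x
  show x ∈ lang GraphIso ↔ D (f x) = [true]
  rw [h4, h1, hD' N M X' Y' (hC _ _ ⟨a, h2⟩) (hC _ _ ⟨b, h3⟩)]

theorem ncard_eq {N : ℕ} (hN : 10 ≤ N) :
    ({3 * (N : ℝ) - 9, 2 * (N : ℝ) - 9, (N : ℝ) - 7, -3} : Set ℝ).ncard = 4 := by
  have h : (10 : ℝ) ≤ N := by exact_mod_cast hN
  rw [Set.ncard_insert_of_notMem, Set.ncard_insert_of_notMem, Set.ncard_pair]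
  · intro h'; linarith
  · simp only [Set.mem_insert_iff, Set.mem_singleton_iff, not_or]
    exact ⟨fun h' => by linarith, fun h' => by linarith⟩
  · simp only [Set.mem_insert_iff, Set.mem_singleton_iff, not_or]
    exact ⟨fun h' => by linarith, fun h' => by linarith, fun h' => by linarith⟩

/-- **Isomorphism of graphs cospectral with the Johnson graphs `J(N, 3)` is GI-complete**, and so is
isomorphism of connected regular graphs with exactly four distinct eigenvalues.

* There is a polynomial-time computable function `f` on bit strings such that, for *every* bit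
  string `x`, the value `f x` codes a pair of adjacency matrices of connected regular graphs `X'`
  and `Y'`, each of which is cospectral with a Johnson graph `J(N, 3)`, `N ≥ 10`, and `x` is a
  yes-instance of the graph isomorphism problem for arbitrary graphs iff `X'` and `Y'` are
  isomorphic.
* So graph isomorphism is in P iff isomorphism can be decided in polynomial time for the graphs
  cospectral with a Johnson graph `J(N, 3)`; and iff this is so for the connected regular graphs
  with exactly four distinct eigenvalues. -/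
theorem result :
    (∃ f : List Bool → List Bool, PolyTime f ∧ ∀ x : List Bool,
      ∃ (a b N M : ℕ) (X' : SimpleGraph (Fin N)) (Y' : SimpleGraph (Fin M)),
        f x = bits (adjMatrix X', adjMatrix Y') ∧ JohnsonLike a X' ∧ JohnsonLike b Y' ∧
          (x ∈ lang GraphIso ↔ Nonempty (X' ≃g Y'))) ∧
    (InPP GraphIso ↔ IsoInP fun _ G => ∃ N, charPoly G = charPoly (johnson N 3)) ∧
    (InPP GraphIso ↔ IsoInP fun _ G =>
      G.Connected ∧ (∃ d, Regular G d) ∧ (eigenvalues G).ncard = 4) := by
  refine ⟨main, ⟨gi_to _, to_gi _ fun _ _ h => ?_⟩, ⟨gi_to _, to_gi _ fun _ _ h => ?_⟩⟩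
  · obtain ⟨N, -, -, -, -, h⟩ := h
    exact ⟨N, h⟩
  · obtain ⟨N, h0, h1, h2, h3, -⟩ := h
    exact ⟨h1, ⟨_, h2⟩, by rw [h3, ncard_eq h0]⟩

end Pool.Agent.Results.MP_128e7d_lc.JohnsonSpectrum
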