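import Pool.Agent.U16.GI.Thm

/-!
# How rarely can a polynomial-time algorithm for graph isomorphism be wrong?

An algorithm for graph isomorphism (the set `A` of the accepted inputs) is wrong about the graph `G`
(`Errs A G`) if it gives the wrong answer for `(G, H)`, for some `H` with as many vertices. Random
graphs are noisy: for each pair of vertices, the conditional probability of either state, given all
other pairs, is at least `δ` (`Law δ W`); for example the uniform random graph (`unif n`), or an
arbitrary fixed graph each of whose pairs is changed independently with probability `δ`.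

1. For every constant `C` there is a polynomial-time algorithm which, for all noisy laws, is right
about all graphs which an adversary can get from the random graph by changing at most `C n` pairs,
except with probability `2 ^ (- C n)`.

The other parts say that neither the number of changes nor the exponent of the probability can be
`n ^ (1 + ε)`, for any `ε > 0`, unless graph isomorphism is easy in the worst case.

2. Graph isomorphism is in `P/poly` if and only if some algorithm in `P/poly` is wrong with
probability at most `2 ^ (- n ^ (1 + ε))`, for some noisy law for each large `n`.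

3. Graph isomorphism is in `P/poly` if and only if some algorithm in `P/poly` is, for each large `n`,
right about all graphs within distance `n ^ (1 + ε)` of some graph with `n` vertices.

4. Graph isomorphism is in `P` if and only if some algorithm in `P` is, for each large `n`, right
about all graphs within distance `n ^ (1 + ε)` of the `n`-th graph of some sequence which is
computable in polynomial time (from `n` in unary).

5. Graph isomorphism is in `BPP` if and only if some algorithm in `BPP` is wrong about a fraction
of at most `2 ^ (- n ^ (1 + ε))` of the graphs on `n` labelled vertices, for all large `n`.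

Proof. The algorithm of part 1 is the Weisfeiler-Leman method of constant dimension; its
probability of failure is estimated in the starting library (`RobustWLIdentification`), and it
is shown here that it runs in polynomial time on a Turing machine. For the other parts, `G` and `H`
with `n` vertices are isomorphic if and only if `G + X` and `H + X` are, where `X` has `m = poly n`
vertices. There are less than `n (n + m)` pairs which meet the first `n` vertices. So if the
errors are rarer than any pattern of these pairs then some (or most) `X` are such that there is no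
error for `G + X`, whatever `G` is.
-/

set_option autoImplicit false

namespace Pool.Agent.Results.MP_128e7d_lc.RareErrorsThreshold

open Filter Pool.Agent.NPC Pool.Agent.NPC.R671 Pool.Agent.Y815.GI Pool.Agent.N579.WL
  Pool.Agent.Y645.BT Pool.Agent.U16.GI

theorem result (δ : ℝ) (hδ0 : 0 < δ) (hδ : δ ≤ 1 / 2) :
    (∀ C : ℝ, ∃ A : Set (List Bool), InP A ∧ ∀ᶠ n : ℕ in atTop,
      ∀ W : SimpleGraph (Fin n) → ℝ, Law δ W →
        prob W {G | ∃ H, (Pool.Agent.N579.WL.dist G H : ℝ) ≤ C * n ∧ Errs A H} ≤
          (2 : ℝ) ^ (-(C * n))) ∧
    ∀ ε : ℝ, 0 < ε →
      (InPPoly (lang GraphIso) ↔ ∃ A : Set (List Bool), InPPoly A ∧ ∀ᶠ n : ℕ in atTop,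
        ∃ W : SimpleGraph (Fin n) → ℝ, Law δ W ∧
          prob W {G | Errs A G} ≤ (2 : ℝ) ^ (-((n : ℝ) ^ (1 + ε)))) ∧
      (InPPoly (lang GraphIso) ↔ ∃ A : Set (List Bool), InPPoly A ∧ ∀ᶠ n : ℕ in atTop,
        ∃ Y : SimpleGraph (Fin n), ∀ H,
          (Pool.Agent.N579.WL.dist Y H : ℝ) ≤ (n : ℝ) ^ (1 + ε) → ¬ Errs A H) ∧
      (InP (lang GraphIso) ↔ ∃ A : Set (List Bool), InP A ∧
        ∃ (F : List Bool → List Bool) (Y : (n : ℕ) → SimpleGraph (Fin n)), PolyTime F ∧
          (∀ n, F (List.replicate n true) = bits (adjMatrix (Y n))) ∧
          ∀ᶠ n : ℕ in atTop, ∀ H,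
            (Pool.Agent.N579.WL.dist (Y n) H : ℝ) ≤ (n : ℝ) ^ (1 + ε) → ¬ Errs A H) ∧
      (InBPP (lang GraphIso) ↔ ∃ A : Set (List Bool), InBPP A ∧ ∀ᶠ n : ℕ in atTop,
        prob (unif n) {G | Errs A G} ≤ (2 : ℝ) ^ (-((n : ℝ) ^ (1 + ε)))) :=
  ⟨upper' δ hδ0 hδ, fun _ hε => ⟨law_iff hδ0 hδ hε, ball_iff hε, explicit_iff hε, bpp_iff hε⟩⟩

end Pool.Agent.Results.MP_128e7d_lc.RareErrorsThreshold
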