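import Pool.Agent.U279.RC.UpperMain

/-!
# Symmetric circuits for the isomorphism of finite commutative rings have size `n ^ Θ(log n)`

The isomorphism of finite commutative rings given by their addition and multiplication tables is a
special case of graph isomorphism that is decided in time `n ^ O(log n)` (try all images of
`log n` generators), and no better bound than `n ^ O(log n)` is known.

A circuit reads the bits of the tables of two rings on the same set `Q`, and its gates compute
arbitrary functions, with values in any set, of the multiset of the labelled values on their wires
(for example functions of the number of true values). It is symmetric if every permutation of `Q`,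
applied to the first ring, extends to an automorphism of the circuit; all circuits that are
obtained by translating formulas of logics or choiceless algorithms have this property.

Lower bound: if `n = p ^ r`, `p` a prime (`p = 2` is included), and `K k ≤ r`, then symmetric
circuits that decide isomorphism for the commutative local rings of order `n` and characteristic
`p` in which the products of three nonunits are zero have at least `n ^ k` gates; so the size is at
least `n ^ (log_p n / K)` up to rounding. More generally, in an arbitrary circuit of this kind the
wirings of the gates (the functions that enter the gates) have at least `n ^ k` different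
transforms under the permutations of `Q`. There are even two such rings which are not isomorphic
such that every circuit with fewer transforms gives, for random copies of the two rings (and any
second pair of tables), outputs with the same distribution.

Upper bound: there is a symmetric circuit with at most `n ^ (2 log n + 12)` gates that decides
isomorphism for all commutative rings of order `n`.

Proof of the lower bound: the rings are `F_p ⊕ (A × B) ⊕ Γ` with the multiplication given by a
symmetric bilinear map `f(x, y) + c(y) + d(x)` on `A × B`, where `B` is a space of tuples of
functionals on `A` cut out by an expanding family of symmetric maps `q i : A* → A` (files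
`Pool/Agent/U279/CR`). Local solutions `M` of `M x y + M y x = f x y` give partial isomorphisms
which can be extended point by point, and averages over the even permutations that fix few points
are transported from one ring to the other by the engine of `Pool/Agent/Y600/Circ` (the circuits
for groups).
-/

set_option autoImplicit false

namespace Pool.Agent.Results.MP_128e7d_lc.RingCircuits

open Pool.Agent.U279.RC
open Pool.Agent.Y600.Circ (Circuit Table numWirings)

/-- **The size of symmetric circuits for the isomorphism of commutative rings.** -/
theorem result : ∃ K : ℕ,
    (∀ p : ℕ, p.Prime → ∀ k r : ℕ, 1 ≤ k → K * k ≤ r →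
      ∀ (Q : Type) [Fintype Q], Fintype.card Q = p ^ r →
        (∀ (D L : Type)
          (C : Circuit (((Q × Q × Q) ⊕ (Q × Q × Q)) ⊕ ((Q × Q × Q) ⊕ (Q × Q × Q))) D L)
          (acc : Set D), DecidesOn (CubeZero p) C acc →
            Fintype.card Q ^ k ≤ numWirings ringBits C (firstRelabelings Q)) ∧
        (∀ (D L : Type)
          (C : Circuit (((Q × Q × Q) ⊕ (Q × Q × Q)) ⊕ ((Q × Q × Q) ⊕ (Q × Q × Q))) D L)
          (acc : Set D), Symmetric C → DecidesOn (CubeZero p) C acc →
            Fintype.card Q ^ k ≤ C.size) ∧
        ∃ R S : CommRing Q, CubeZero p R ∧ CubeZero p S ∧
          (∀ σ : Equiv.Perm Q, relabelR σ (rtab R) ≠ rtab S) ∧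
          ∀ (D L : Type)
            (C : Circuit (((Q × Q × Q) ⊕ (Q × Q × Q)) ⊕ ((Q × Q × Q) ⊕ (Q × Q × Q))) D L),
            numWirings ringBits C (firstRelabelings Q) < Fintype.card Q ^ k →
            ∀ (t : Table Q × Table Q) (d : D),
              Nat.card {σ : Equiv.Perm Q //
                C.output (ringBits (relabelR σ (rtab R), t)) = d} =
              Nat.card {σ : Equiv.Perm Q //
                C.output (ringBits (relabelR σ (rtab S), t)) = d}) ∧
    ∀ (Q : Type) [Fintype Q], 2 ≤ Fintype.card Q →
      ∃ C : Circuit (((Q × Q × Q) ⊕ (Q × Q × Q)) ⊕ ((Q × Q × Q) ⊕ (Q × Q × Q))) Bool Unit,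
        Symmetric C ∧ DecidesOn (fun _ => True) C {true} ∧
        C.size ≤ Fintype.card Q ^ (2 * Nat.log 2 (Fintype.card Q) + 12) := by
  classical
  refine ⟨2100, fun p hp k r hk hr Q _ hQ => ⟨?_, ?_, ?_⟩, fun Q _ h2 =>
    ⟨_, symmetric_circ, decides_circ, size_le h2⟩⟩
  · intro D L C acc hC
    rw [hQ]
    exact lower p hp k r hk hr Q hQ D L C acc hC
  · intro D L C acc hS hC
    rw [hQ]
    exact (lower p hp k r hk hr Q hQ D L C acc hC).trans (numWirings_le_size C hS)
  · have : Fact p.Prime := ⟨hp⟩
    obtain ⟨R, S, h1, h3, h4, h5⟩ := main p k r hk hr Q hQ
    refine ⟨R, S, h1, h3, h4, fun D L C hnum t d => ?_⟩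
    rw [hQ] at hnum
    have h6 := h5 D L C hnum t ℕ inferInstance (fun d' => if d' = d then 1 else 0)
    rw [Finset.sum_boole, Finset.sum_boole] at h6
    rw [Nat.card_eq_fintype_card, Nat.card_eq_fintype_card, Fintype.card_subtype,
      Fintype.card_subtype]
    exact h6

end Pool.Agent.Results.MP_128e7d_lc.RingCircuits
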